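import Pool.Agent.H615Z.RC.TreeB

/-! The two Coxeter groups are quasi-isometric: a free transitive bounded action. -/

set_option autoImplicit false

namespace Pool.Agent.H728Z.RC.Tree

/-- the data of the bounded bijections -/
structure Sys where
  M : ℕ
  χ : Fin 5 → CG GW →* Multiplicative (ZMod 2)
  g : Fin 5 → Bool → CG GW → CG GW
  σ : Fin 5 → Bool → CG GW → CG GW
  hχD : ∀ j, ∀ u ∈ DW j, χ j u = 1
  hg : ∀ j e x, g j e x ∈ Sm j M
  hgD : ∀ j e x, ∀ u ∈ DW j, g j e (x * u) = g j e x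
  hgE : ∀ j e x, χ j (x * g j e x) = ee e
  hinj : ∀ j e x y, x * g j e x = y * g j e y → x = y
  hsurj : ∀ j e y, χ j y = ee e → ∃ x, x * g j e x = y
  hσ : ∀ j e x, σ j e x * g j e (σ j e x) = x * g j e x * gw (j, 2)

theorem exists_sys : Nonempty Sys := by
  obtain ⟨M, hM⟩ := exists_g
  choose χ h1 h2 g h3 h4 h5 h6 h7 using hM
  have h8 : ∀ j e x, ∃ y, y * g j e y = x * g j e x * gw (j, 2) := by
    intro j e x
    apply h7
    rw [map_mul, h5, h2, mul_one]
  choose σ hσ using h8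
  exact ⟨⟨M, χ, g, σ, h1, h3, h4, h5, h6, h7, hσ⟩⟩

theorem d_comm {j : Fin 5} {u : CG GW} (hu : u ∈ DW j) : gw (j, 2) * u = u * gw (j, 2) := by
  refine comm_DW ?_ hu
  have h : ∀ (j : Fin 5) (x : Fin 5 × Fin 3), x.1 = j → x.2 ≠ 2 → GW.Adj (j, 2) x := by decide
  exact h j

theorem Sys.nu_mul (S : Sys) (j : Fin 5) (e : Bool) (x : CG GW) {u : CG GW} (hu : u ∈ DW j) :
    x * u * S.g j e (x * u) = x * S.g j e x * u := by
  rw [S.hgD j e x u hu, mul_assoc, ← (S.hg j e x).2.2 u hu, mul_assoc]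

theorem Sys.invol (S : Sys) (j : Fin 5) (e : Bool) : Function.Involutive (S.σ j e) := by
  intro x
  apply S.hinj j e
  rw [S.hσ, S.hσ, mul_assoc, gw_sq, mul_one]

theorem Sys.σ_mul (S : Sys) (j : Fin 5) (e : Bool) (x : CG GW) {u : CG GW} (hu : u ∈ DW j) :
    S.σ j e (x * u) = S.σ j e x * u := by
  apply S.hinj j e
  rw [S.hσ, S.nu_mul j e x hu, S.nu_mul j e _ hu, S.hσ, mul_assoc _ u, ← d_comm hu, ← mul_assoc]

theorem Sys.σ_eq (S : Sys) (j : Fin 5) (e : Bool) (x : CG GW) :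
    S.σ j e x = x * S.g j e x * gw (j, 2) * (S.g j e (S.σ j e x))⁻¹ := by
  rw [← S.hσ]; group

/-- the extra generators of the second group -/
def dd (j : Fin 5) (e : Bool) : CG (dbl GA) := PresentedGroup.of ((j, true), e)

/-- images of the generators in the second group -/
def pg (x : Fin 5 × Fin 3) : CG (dbl GA) :=
  if x.2 = 2 then 1 else PresentedGroup.of ((x.1, false), decide (x.2 = 1))

theorem exists_pi : ∃ π : CG GW →* CG (dbl GA), ∀ x, π (gw x) = pg x := by
  refine exists_hom _ (fun a => ?_) (fun a b hab => ?_)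
  · unfold pg
    split_ifs
    · simp
    · exact of_sq _
  · unfold pg
    split_ifs with h1 h2 h2
    · rfl
    · simp
    · simp
    · apply of_comm
      have h : ∀ a b : Fin 5 × Fin 3, GW.Adj a b → a.2 ≠ 2 → b.2 ≠ 2 →
          GA.Adj (a.1, false) (b.1, false) := by decide
      exact h a b hab h1 h2

/-- the letter `a` or `b` -/
def ab (e : Bool) : Fin 3 := if e then 1 else 0

theorem ab_ne (e : Bool) : ab e ≠ 2 := by cases e <;> decide

/-- permutations attached to the generators of the second group -/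
def Sys.pm (S : Sys) (x : (Fin 5 × Bool) × Bool) : Equiv.Perm (CG GW) :=
  if x.1.2 then (S.invol x.1.1 x.2).toPerm else Equiv.mulRight (gw (x.1.1, ab x.2))

theorem Sys.pm_true (S : Sys) (j : Fin 5) (e : Bool) (y : CG GW) :
    S.pm ((j, true), e) y = S.σ j e y := rfl

theorem Sys.pm_false (S : Sys) (j : Fin 5) (e : Bool) (y : CG GW) :
    S.pm ((j, false), e) y = y * gw (j, ab e) := rfl

theorem Sys.exists_rho (S : Sys) : ∃ ρ : CG (dbl GA) →* Equiv.Perm (CG GW),
    ∀ x, ρ (PresentedGroup.of x) = S.pm x := by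
  refine exists_hom _ ?_ ?_
  · rintro ⟨⟨j, b⟩, e⟩
    ext y
    cases b
    · rw [Equiv.Perm.mul_apply, S.pm_false, S.pm_false, mul_assoc, gw_sq, mul_one]; rfl
    · rw [Equiv.Perm.mul_apply, S.pm_true, S.pm_true, S.invol]; rfl
  · rintro ⟨⟨j, b⟩, e⟩ ⟨⟨j', b'⟩, e'⟩ hab
    have hab' : GA.Adj (j, b) (j', b') := hab
    ext y
    rw [Equiv.Perm.mul_apply, Equiv.Perm.mul_apply]
    cases b <;> cases b'
    · rw [S.pm_false, S.pm_false, S.pm_false, S.pm_false, mul_assoc, mul_assoc]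
      have h : ∀ (j j' : Fin 5) (e e' : Bool), GA.Adj (j, false) (j', false) →
          GW.Adj (j', ab e') (j, ab e) := by decide
      exact congrArg _ (of_comm (h j j' e e' hab'))
    · have h : ∀ j j' : Fin 5, GA.Adj (j, false) (j', true) → j = j' := by decide
      obtain rfl := h j j' hab'
      rw [S.pm_false, S.pm_true, S.pm_false, S.pm_true,
        S.σ_mul j e' y (gw_mem_DW rfl (ab_ne e))]
    · have h : ∀ j j' : Fin 5, GA.Adj (j, true) (j', false) → j = j' := by decide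
      obtain rfl := h j j' hab'
      rw [S.pm_false, S.pm_true, S.pm_false, S.pm_true,
        S.σ_mul j e y (gw_mem_DW rfl (ab_ne e'))]
    · have h : ∀ j j' : Fin 5, ¬ GA.Adj (j, true) (j', true) := by decide
      exact absurd hab' (h j j')

/-- letters of the normal form -/
abbrev Lt : Type := Fin 5 × Bool × CG GW

/-- all middle letters lie in `BW` -/
def Good (l : List Lt) : Prop := ∀ s ∈ l, s.2.2 ∈ BW

/-- the product of a list of letters -/
def pr (π : CG GW →* CG (dbl GA)) (l : List Lt) : CG (dbl GA) :=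
  (l.map fun s => dd s.1 s.2.1 * π s.2.2).prod

theorem pr_cons (π : CG GW →* CG (dbl GA)) (s : Lt) (l : List Lt) :
    pr π (s :: l) = dd s.1 s.2.1 * π s.2.2 * pr π l := by simp [pr]

theorem normal_form {π : CG GW →* CG (dbl GA)} (hπ : ∀ x, π (gw x) = pg x) (w : CG (dbl GA)) :
    ∃ β ∈ BW, ∃ l, Good l ∧ w = π β * pr π l := by
  induction w using ind_left with
  | h1 => exact ⟨1, BW.one_mem, [], fun s hs => by simp at hs, by simp [pr]⟩
  | h2 a x ih =>
    obtain ⟨β, hβ, l, hl, rfl⟩ := ih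
    rcases a with ⟨⟨j, b⟩, e⟩
    cases b
    · refine ⟨gw (j, ab e) * β, BW.mul_mem (gw_mem_BW (ab_ne e)) hβ, l, hl, ?_⟩
      have : pg (j, ab e) = PresentedGroup.of ((j, false), e) := by
        cases e <;> simp [pg, ab]
      rw [map_mul, hπ, this, mul_assoc]
    · refine ⟨1, BW.one_mem, (j, e, β) :: l, ?_, ?_⟩
      · intro s hs
        rcases List.mem_cons.mp hs with rfl | hs
        · exact hβ
        · exact hl s hs
      · rw [pr_cons, map_one, one_mul, mul_assoc]; rfl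

theorem dd_comm {π : CG GW →* CG (dbl GA)} (hπ : ∀ x, π (gw x) = pg x) (j : Fin 5) (e : Bool)
    {u : CG GW} (hu : u ∈ DW j) : dd j e * π u = π u * dd j e := by
  have : DW j ≤ (Subgroup.centralizer {dd j e}).comap π := by
    unfold DW
    rw [Subgroup.closure_le]
    rintro _ ⟨x, hx, rfl⟩
    rw [SetLike.mem_coe, Subgroup.mem_comap, Subgroup.mem_centralizer_singleton_iff, hπ, pg,
      if_neg hx.2]
    apply of_comm
    have h : ∀ i j : Fin 5, i = j → GA.Adj (i, false) (j, true) := by decide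
    exact h _ _ hx.1
  exact (Subgroup.mem_centralizer_singleton_iff.mp (this hu)).symm

/-- no cancellation is possible along the list, starting from the point `y` -/
def Sys.Red (S : Sys) : CG GW → List Lt → Prop
  | _, [] => True
  | _, [_] => True
  | y, s :: s' :: l =>
      ¬ (s.1 = s'.1 ∧ (S.g s.1 s.2.1 (S.σ s.1 s.2.1 y))⁻¹ * s.2.2 *
        S.g s'.1 s'.2.1 (S.σ s.1 s.2.1 y * s.2.2) ∈ DW s.1) ∧
      S.Red (S.σ s.1 s.2.1 y * s.2.2) (s' :: l)

/-- the orbit of a point along a list -/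
def Sys.run (S : Sys) : CG GW → List Lt → CG GW
  | y, [] => y
  | y, s :: l => S.run (S.σ s.1 s.2.1 y * s.2.2) l

theorem Sys.red_mem (S : Sys) {X : Fin 5 → Set (CG GW)}
    (h2 : ∀ j, ∀ β ∈ BW, gw (j, 2) * β ∈ X j)
    (h3 : ∀ j j' z, z ∈ X j' → ∀ β ∈ BW, ¬ (j = j' ∧ β ∈ DW j) → gw (j, 2) * β * z ∈ X j)
    (l : List Lt) : ∀ (s : Lt) (y : CG GW), Good (s :: l) → S.Red y (s :: l) →
      (y * S.g s.1 s.2.1 y)⁻¹ * S.run y (s :: l) ∈ X s.1 := by
  induction l with
  | nil =>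
    intro s y hG _
    have hβ : s.2.2 ∈ BW := hG s (by simp)
    have h := h2 s.1 ((S.g s.1 s.2.1 (S.σ s.1 s.2.1 y))⁻¹ * s.2.2)
      (BW.mul_mem (BW.inv_mem (S.hg _ _ _).1) hβ)
    have e : (y * S.g s.1 s.2.1 y)⁻¹ * S.run y [s] =
        gw (s.1, 2) * ((S.g s.1 s.2.1 (S.σ s.1 s.2.1 y))⁻¹ * s.2.2) := by
      show (y * S.g s.1 s.2.1 y)⁻¹ * (S.σ s.1 s.2.1 y * s.2.2) = _
      nth_rewrite 1 [S.σ_eq]
      group
    rw [e]; exact h
  | cons s' l ih =>
    intro s y hG hR
    have hβ : s.2.2 ∈ BW := hG s (by simp)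
    obtain ⟨hR1, hR2⟩ := hR
    have h := ih s' _ (fun t ht => hG t (List.mem_cons_of_mem _ ht)) hR2
    have h4 := h3 s.1 s'.1 _ h _
      (BW.mul_mem (BW.mul_mem (BW.inv_mem (S.hg _ _ _).1) hβ) (S.hg _ _ _).1) hR1
    have e : S.run y (s :: s' :: l) = S.run (S.σ s.1 s.2.1 y * s.2.2) (s' :: l) := rfl
    rw [e]
    generalize S.run (S.σ s.1 s.2.1 y * s.2.2) (s' :: l) = z at h4 ⊢
    generalize S.g s'.1 s'.2.1 (S.σ s.1 s.2.1 y * s.2.2) = f at h4
    have e2 := S.σ_eq s.1 s.2.1 y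
    generalize S.g s.1 s.2.1 (S.σ s.1 s.2.1 y) = f' at h4 e2
    rw [e2] at h4
    have e3 : gw (s.1, 2) * (f'⁻¹ * s.2.2 * f) *
        ((y * S.g s.1 s.2.1 y * gw (s.1, 2) * f'⁻¹ * s.2.2 * f)⁻¹ * z) =
        (y * S.g s.1 s.2.1 y)⁻¹ * z := by group
    rw [e3] at h4
    exact h4

theorem Sys.cancel (S : Sys) {j : Fin 5} {e e' : Bool} {z β : CG GW}
    (h : (S.g j e z)⁻¹ * β * S.g j e' (z * β) ∈ DW j) : e = e' ∧ β ∈ DW j := by
  set u := (S.g j e z)⁻¹ * β * S.g j e' (z * β) with hu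
  have e1 : z * β * S.g j e' (z * β) = z * S.g j e z * u := by rw [hu]; group
  have h1 : e = e' := by
    apply ee_inj
    rw [← S.hgE j e' (z * β), e1, map_mul, S.hχD j u h, mul_one, S.hgE]
  subst h1
  refine ⟨rfl, ?_⟩
  rw [← S.nu_mul j e z h] at e1
  have h2 := mul_left_cancel (S.hinj j e _ _ e1)
  rw [h2]; exact h

theorem Sys.shorten (S : Sys) {π : CG GW →* CG (dbl GA)} (hπ : ∀ x, π (gw x) = pg x)
    (l : List Lt) : ∀ y : CG GW, Good l → ¬ S.Red y l →
      ∃ β ∈ BW, ∃ l', Good l' ∧ l'.length < l.length ∧ pr π l = π β * pr π l' := by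
  induction l with
  | nil => intro y _ h; exact absurd trivial h
  | cons s l ih =>
    intro y hG hR
    rcases l with _ | ⟨s', l⟩
    · exact absurd trivial hR
    have hβ : s.2.2 ∈ BW := hG s (by simp)
    have hβ' : s'.2.2 ∈ BW := hG s' (by simp)
    have hG' : Good (s' :: l) := fun t ht => hG t (List.mem_cons_of_mem _ ht)
    by_cases h1 : (s.1 = s'.1 ∧ (S.g s.1 s.2.1 (S.σ s.1 s.2.1 y))⁻¹ * s.2.2 *
        S.g s'.1 s'.2.1 (S.σ s.1 s.2.1 y * s.2.2) ∈ DW s.1)
    · obtain ⟨j, e, β⟩ := s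
      obtain ⟨j', e', β'⟩ := s'
      obtain ⟨h2, h3⟩ := h1
      dsimp only at h2 h3 hβ hβ'
      subst h2
      obtain ⟨rfl, h4⟩ := S.cancel h3
      refine ⟨β * β', BW.mul_mem hβ hβ', l,
        fun t ht => hG' t (List.mem_cons_of_mem _ ht), by simp only [List.length_cons]; omega, ?_⟩
      rw [pr_cons, pr_cons]
      dsimp only
      have h5 : dd j e * dd j e = 1 := of_sq _
      rw [dd_comm hπ j e h4, map_mul]
      calc π β * dd j e * (dd j e * π β' * pr π l)
          = π β * (dd j e * dd j e) * π β' * pr π l := by group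
        _ = π β * π β' * pr π l := by rw [h5, mul_one]
    · have h2 : ¬ S.Red (S.σ s.1 s.2.1 y * s.2.2) (s' :: l) := fun h => hR ⟨h1, h⟩
      obtain ⟨β, hb, l', hl', hlen, e⟩ := ih _ hG' h2
      refine ⟨1, BW.one_mem, (s.1, s.2.1, s.2.2 * β) :: l', ?_, ?_, ?_⟩
      · intro t ht
        rcases List.mem_cons.mp ht with rfl | ht
        · exact BW.mul_mem hβ hb
        · exact hl' t ht
      · simp only [List.length_cons] at hlen ⊢; omega
      · rw [pr_cons, e, pr_cons, map_one, one_mul, map_mul]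
        group

theorem tree_main : TreeStmt := by
  rintro ⟨X, hX1, hX2, hX3⟩
  obtain ⟨S⟩ := exists_sys
  obtain ⟨π, hπ⟩ := exists_pi
  obtain ⟨ρ, hρ⟩ := S.exists_rho
  let A : CG (dbl GA) → CG GW → CG GW := fun w x => ρ w⁻¹ x
  have A1 : ∀ x, A 1 x = x := by
    intro x
    show ρ 1⁻¹ x = x
    rw [inv_one, map_one]
    rfl
  have Amul : ∀ w w' x, A (w * w') x = A w' (A w x) := by
    intro w w' x
    simp only [A, mul_inv_rev, map_mul, Equiv.Perm.mul_apply]
  have Aof : ∀ v x, A (PresentedGroup.of v) x = S.pm v x := by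
    intro v x
    simp only [A]
    rw [of_inv, hρ]
  have Add : ∀ j e x, A (dd j e) x = S.σ j e x := fun j e x => Aof _ _
  have Aπ : ∀ β ∈ BW, ∀ x, A (π β) x = x * β := by
    intro β hβ
    induction hβ using Subgroup.closure_induction with
    | mem y hy =>
      obtain ⟨⟨i, c⟩, hc, rfl⟩ := hy
      intro x
      have hc' : c ≠ 2 := hc
      rw [hπ, pg, if_neg hc', Aof, S.pm_false]
      have h : ∀ c : Fin 3, c ≠ 2 → ab (decide (c = 1)) = c := by decide
      rw [h c hc']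
    | one => intro x; rw [map_one, A1, mul_one]
    | mul y z _ _ hy hz => intro x; rw [map_mul, Amul, hy, hz, mul_assoc]
    | inv y _ hy =>
      intro x
      have h := Amul (π y) (π y⁻¹) (x * y⁻¹)
      rw [← map_mul, mul_inv_cancel, map_one, A1, hy, inv_mul_cancel_right] at h
      exact h.symm
  have Apr : ∀ l, Good l → ∀ y, A (pr π l) y = S.run y l := by
    intro l
    induction l with
    | nil => intro _ y; exact A1 y
    | cons s l ih =>
      intro hG y
      rw [pr_cons, Amul, Amul, Add, Aπ _ (hG s (by simp)),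
        ih (fun t ht => hG t (List.mem_cons_of_mem _ ht))]
      rfl
  have free0 : ∀ n : ℕ, ∀ l : List Lt, l.length < n → Good l → ∀ β ∈ BW,
      A (π β * pr π l) 1 = 1 → π β * pr π l = 1 := by
    intro n
    induction n with
    | zero => intro l h; omega
    | succ n ih =>
      intro l hl hG β hβ h
      by_cases hR : S.Red β l
      · rw [Amul, Aπ β hβ, one_mul, Apr l hG] at h
        rcases l with _ | ⟨s, l⟩
        · have : β = 1 := h
          rw [this]; simp [pr]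
        · have h1 := S.red_mem hX2 hX3 l s β hG hR
          rw [h, mul_one] at h1
          exact absurd h1 (hX1 _ _ (BW.inv_mem (BW.mul_mem hβ (S.hg _ _ _).1)))
      · obtain ⟨β', hβ', l', hl', hlen, e⟩ := S.shorten hπ l β hG hR
        rw [e, ← mul_assoc, ← map_mul] at h ⊢
        exact ih l' (by omega) hl' _ (BW.mul_mem hβ hβ') h
  have free : ∀ w, A w 1 = 1 → w = 1 := by
    intro w hw
    obtain ⟨β, hβ, l, hl, rfl⟩ := normal_form hπ w
    exact free0 _ l (Nat.lt_succ_self _) hl β hβ hw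
  let Φ : CG (dbl GA) → CG GW := fun w => A w 1
  have hinj : Function.Injective Φ := by
    intro w w' h
    have h1 : A (w * w'⁻¹) 1 = 1 := by
      rw [Amul]
      show A w'⁻¹ (Φ w) = 1
      rw [h]
      show A w'⁻¹ (A w' 1) = 1
      rw [← Amul, mul_inv_cancel, A1]
    exact mul_inv_eq_one.mp (free _ h1)
  have hπs : ∀ f N, Sh (cRel GW) f N → Sh (cRel (dbl GA)) (π f) N := by
    intro f N hf
    have := sh_hom π 1 (fun v => by
      show Sh _ (π (gw v)) 1
      rw [hπ, pg]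
      split_ifs
      · exact sh_one _
      · exact sh_of _) f N hf
    simpa using this
  have hback : ∀ (x : CG GW) (v : Fin 5 × Fin 3), ∃ w,
      Sh (cRel (dbl GA)) w (S.M + 1 + S.M) ∧ A w x = x * gw v := by
    rintro x ⟨j, c⟩
    by_cases hc : c = 2
    · subst hc
      obtain ⟨e, he⟩ := ee_surj (S.χ j x)
      obtain ⟨z, hz⟩ := S.hsurj j e x he
      refine ⟨π (S.g j e z)⁻¹ * dd j e * π (S.g j e (S.σ j e z)), ?_, ?_⟩
      · exact sh_mul (sh_mul (hπs _ _ (sh_inv (S.hg _ _ _).2.1)) (sh_of _))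
          (hπs _ _ (S.hg _ _ _).2.1)
      · have e1 : x * (S.g j e z)⁻¹ = z := by rw [← hz]; group
        rw [Amul, Amul, Aπ _ (BW.inv_mem (S.hg _ _ _).1), e1, Add, Aπ _ (S.hg _ _ _).1, S.hσ, hz]
    · exact ⟨π (gw (j, c)), sh_mono (hπs _ _ (sh_of _)) (by omega), Aπ _ (gw_mem_BW hc) x⟩
  have hsurj : Function.Surjective Φ := by
    intro x
    induction x using ind_right with
    | h1 => exact ⟨1, A1 1⟩
    | h2 v x ih =>
      obtain ⟨w, hw⟩ := ih
      obtain ⟨w', -, h⟩ := hback x v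
      refine ⟨w * w', ?_⟩
      show A (w * w') 1 = _
      rw [Amul]
      show A w' (Φ w) = _
      rw [hw, h]
      rfl
  choose Ψ hΨ using hsurj
  refine ⟨Φ, S.M + 1 + S.M, 0, fun x y N h => ?_, fun x y N h => ?_, fun z => ⟨Ψ z, ?_⟩⟩
  · refine lip Φ _ (fun x v => ?_) x y N h
    have e0 : Φ (x * PresentedGroup.of v) = S.pm v (Φ x) := by
      show A _ 1 = _
      rw [Amul, Aof]
    rw [e0]
    clear e0
    rcases v with ⟨⟨j, b⟩, e⟩
    cases b
    · rw [S.pm_false, inv_mul_cancel_left]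
      exact sh_mono (sh_of _) (by omega)
    · rw [S.pm_true, S.σ_eq]
      have h1 := sh_mul (sh_mul (S.hg j e (Φ x)).2.1 (sh_of (R := cRel GW) (j, 2)))
        (sh_inv (S.hg j e (S.σ j e (Φ x))).2.1)
      have e2 : (Φ x)⁻¹ * (Φ x * S.g j e (Φ x) * gw (j, 2) * (S.g j e (S.σ j e (Φ x)))⁻¹) =
          S.g j e (Φ x) * gw (j, 2) * (S.g j e (S.σ j e (Φ x)))⁻¹ := by group
      rw [e2]
      exact h1
  · have h1 := lip Ψ (S.M + 1 + S.M) (fun p v => ?_) _ _ N h
    · rw [hinj (hΨ (Φ x)), hinj (hΨ (Φ y))] at h1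
      exact h1
    · obtain ⟨w, hw, e⟩ := hback p v
      have e2 : Ψ (p * PresentedGroup.of v) = Ψ p * w := by
        apply hinj
        rw [hΨ]
        show _ = A _ 1
        rw [Amul]
        show _ = A w (Φ (Ψ p))
        rw [hΨ, e]
        rfl
      rw [e2, inv_mul_cancel_left]
      exact hw
  · rw [hΨ, inv_mul_cancel]
    exact sh_one _

end Pool.Agent.H728Z.RC.Tree

namespace Pool.Agent.H728Z.RC

theorem tree_thm : TreeStmt := Tree.tree_main

end Pool.Agent.H728Z.RC
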