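import Pool.Agent.H728Z.RC.Spec

/-! Word length lemmas, basic facts on right-angled Coxeter groups, a coset bijection lemma. -/

set_option autoImplicit false

namespace Pool.Agent.H728Z.RC.Tree

section Words

variable {V V' : Type} [DecidableEq V] [DecidableEq V'] {R : Set (FreeGroup V)}
  {R' : Set (FreeGroup V')}

theorem sh_one (N : ℕ) : Sh R 1 N := ⟨1, map_one _, by simp⟩

theorem sh_mono {g : PresentedGroup R} {N M : ℕ} (h : Sh R g N) (hN : N ≤ M) : Sh R g M := by
  obtain ⟨w, h1, h2⟩ := h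
  exact ⟨w, h1, h2.trans hN⟩

theorem sh_mul {g h : PresentedGroup R} {N M : ℕ} (hg : Sh R g N) (hh : Sh R h M) :
    Sh R (g * h) (N + M) := by
  obtain ⟨w, h1, h2⟩ := hg
  obtain ⟨w', h1', h2'⟩ := hh
  refine ⟨w * w', by rw [map_mul, h1, h1'], ?_⟩
  exact (FreeGroup.norm_mul_le w w').trans (Nat.add_le_add h2 h2')

theorem sh_inv {g : PresentedGroup R} {N : ℕ} (hg : Sh R g N) : Sh R g⁻¹ N := by
  obtain ⟨w, h1, h2⟩ := hg
  refine ⟨w⁻¹, by rw [map_inv, h1], ?_⟩
  have := FreeGroup.norm_inv_eq (x := w)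
  unfold FreeGroup.norm at this
  omega

theorem sh_of (v : V) : Sh R (PresentedGroup.of v) 1 :=
  ⟨FreeGroup.of v, rfl, by simp⟩

omit [DecidableEq V] in
theorem mk_cons (x : V × Bool) (l : List (V × Bool)) :
    (FreeGroup.mk (x :: l) : FreeGroup V) =
      (if x.2 then FreeGroup.of x.1 else (FreeGroup.of x.1)⁻¹) * FreeGroup.mk l := by
  rcases x with ⟨v, b⟩
  cases b
  · simp only [Bool.false_eq_true, if_false]
    rw [FreeGroup.of, FreeGroup.inv_mk, FreeGroup.mul_mk]
    simp [FreeGroup.invRev]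
  · simp only [if_true]
    rw [FreeGroup.of, FreeGroup.mul_mk]
    simp

/-- a map which moves generators a bounded distance is Lipschitz -/
theorem lip_list {G : Type} [Group G] (π : FreeGroup V →* G) (Φ : G → PresentedGroup R') (L : ℕ)
    (h1 : ∀ x v, Sh R' ((Φ x)⁻¹ * Φ (x * π (FreeGroup.of v))) L) (l : List (V × Bool)) :
    ∀ x, Sh R' ((Φ x)⁻¹ * Φ (x * π (FreeGroup.mk l))) (L * l.length) := by
  induction l with
  | nil =>
    intro x
    have : (FreeGroup.mk [] : FreeGroup V) = 1 := rfl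
    rw [this, map_one, mul_one, inv_mul_cancel]
    exact sh_one _
  | cons a l ih =>
    intro x
    rw [mk_cons, map_mul, ← mul_assoc]
    set y := x * π (if a.2 then FreeGroup.of a.1 else (FreeGroup.of a.1)⁻¹) with hy
    have h2 : Sh R' ((Φ x)⁻¹ * Φ y) L := by
      by_cases ha : a.2 = true
      · rw [hy, if_pos ha]; exact h1 x a.1
      · have h3 := sh_inv (h1 y a.1)
        have h4 : y * π (FreeGroup.of a.1) = x := by
          rw [hy, if_neg ha, map_inv]; group
        rw [h4] at h3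
        simpa using h3
    have h5 := sh_mul h2 (ih y)
    have e : (Φ x)⁻¹ * Φ y * ((Φ y)⁻¹ * Φ (y * π (FreeGroup.mk l))) =
        (Φ x)⁻¹ * Φ (y * π (FreeGroup.mk l)) := by group
    rw [e] at h5
    refine sh_mono h5 ?_
    rw [List.length_cons]
    nlinarith

theorem lip (Φ : PresentedGroup R → PresentedGroup R') (L : ℕ)
    (h1 : ∀ x v, Sh R' ((Φ x)⁻¹ * Φ (x * PresentedGroup.of v)) L) (x y : PresentedGroup R) (N : ℕ)
    (h : Sh R (x⁻¹ * y) N) : Sh R' ((Φ x)⁻¹ * Φ y) (L * N) := by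
  obtain ⟨w, hw, hN⟩ := h
  have h2 := lip_list (PresentedGroup.mk R) Φ L h1 w.toWord x
  rw [FreeGroup.mk_toWord, hw, mul_inv_cancel_left] at h2
  exact sh_mono h2 (Nat.mul_le_mul_left _ hN)

theorem sh_free (φ : FreeGroup V →* PresentedGroup R') (L : ℕ)
    (h1 : ∀ v, Sh R' (φ (FreeGroup.of v)) L) (k : FreeGroup V) (N : ℕ) (hk : k.norm ≤ N) :
    Sh R' (φ k) (L * N) := by
  have h2 := lip_list φ id L (fun x v => by simpa using h1 v) k.toWord 1
  rw [FreeGroup.mk_toWord] at h2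
  simp only [id, inv_one, one_mul] at h2
  exact sh_mono h2 (Nat.mul_le_mul_left _ hk)

theorem sh_hom (φ : PresentedGroup R →* PresentedGroup R') (L : ℕ)
    (h1 : ∀ v, Sh R' (φ (PresentedGroup.of v)) L) (g : PresentedGroup R) (N : ℕ) (hg : Sh R g N) :
    Sh R' (φ g) (L * N) := by
  have h2 := lip φ L (fun x v => by simpa using h1 v) 1 g N (by simpa using hg)
  simpa using h2

end Words

section Cox

variable {V : Type} {Γ : SimpleGraph V}

theorem of_sq (a : V) : (PresentedGroup.of a : CG Γ) * PresentedGroup.of a = 1 := by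
  have h : PresentedGroup.mk (cRel Γ) (FreeGroup.of a * FreeGroup.of a) = 1 :=
    PresentedGroup.one_of_mem (Or.inl ⟨a, rfl⟩)
  rw [map_mul] at h
  exact h

theorem of_inv (a : V) : (PresentedGroup.of a : CG Γ)⁻¹ = PresentedGroup.of a :=
  inv_eq_of_mul_eq_one_right (of_sq a)

theorem comm_of_sq {G : Type} [Group G] {x y : G} (hx : x * x = 1) (hy : y * y = 1)
    (h : (x * y) ^ 2 = 1) : x * y = y * x := by
  have h1 : x⁻¹ = x := inv_eq_of_mul_eq_one_right hx
  have h2 : y⁻¹ = y := inv_eq_of_mul_eq_one_right hy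
  have h3 : (x * y)⁻¹ = x * y := inv_eq_of_mul_eq_one_right (by rw [← sq]; exact h)
  rw [← h3, mul_inv_rev, h1, h2]

theorem of_comm {a b : V} (h : Γ.Adj a b) :
    (PresentedGroup.of a : CG Γ) * PresentedGroup.of b =
      PresentedGroup.of b * PresentedGroup.of a := by
  have h1 : PresentedGroup.mk (cRel Γ) ((FreeGroup.of a * FreeGroup.of b) ^ 2) = 1 :=
    PresentedGroup.one_of_mem (Or.inr ⟨a, b, h, rfl⟩)
  rw [map_pow, map_mul] at h1
  exact comm_of_sq (of_sq a) (of_sq b) h1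

theorem rel_ok {G : Type} [Group G] (f : V → G) (h1 : ∀ a, f a * f a = 1)
    (h2 : ∀ a b, Γ.Adj a b → f a * f b = f b * f a) :
    ∀ r ∈ cRel Γ, FreeGroup.lift f r = 1 := by
  rintro r (⟨a, rfl⟩ | ⟨a, b, h, rfl⟩)
  · simp [h1]
  · rw [map_pow, map_mul, FreeGroup.lift_apply_of, FreeGroup.lift_apply_of, sq]
    calc f a * f b * (f a * f b) = f a * f b * (f b * f a) := by rw [h2 a b h]
      _ = f a * (f b * f b) * f a := by group
      _ = 1 := by rw [h1, mul_one, h1]

theorem exists_hom {G : Type} [Group G] (f : V → G) (h1 : ∀ a, f a * f a = 1)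
    (h2 : ∀ a b, Γ.Adj a b → f a * f b = f b * f a) :
    ∃ φ : CG Γ →* G, ∀ a, φ (PresentedGroup.of a) = f a :=
  ⟨PresentedGroup.toGroup (rel_ok f h1 h2), fun _ => PresentedGroup.toGroup.of _⟩

/-- induction by left multiplication with generators -/
theorem ind_left {p : CG Γ → Prop} (h1 : p 1) (h2 : ∀ a x, p x → p (PresentedGroup.of a * x))
    (x : CG Γ) : p x := by
  have hx : x ∈ Subgroup.closure (Set.range (PresentedGroup.of : V → CG Γ)) := by
    rw [PresentedGroup.closure_range_of]; trivial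
  induction hx using Subgroup.closure_induction_left with
  | one => exact h1
  | mul_left y hy z _ ih =>
    obtain ⟨a, rfl⟩ := hy
    exact h2 a z ih
  | inv_mul_cancel y hy z _ ih =>
    obtain ⟨a, rfl⟩ := hy
    rw [of_inv]
    exact h2 a z ih

/-- induction by right multiplication with generators -/
theorem ind_right {p : CG Γ → Prop} (h1 : p 1) (h2 : ∀ a x, p x → p (x * PresentedGroup.of a))
    (x : CG Γ) : p x := by
  have := ind_left (Γ := Γ) (p := fun y => p y⁻¹) (by simpa using h1)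
    (fun a y hy => by
      show p (PresentedGroup.of a * y)⁻¹
      rw [mul_inv_rev, of_inv]
      exact h2 a _ hy) x⁻¹
  simpa using this

end Cox

/-- A bijection from a group onto an invariant subset, moving points by elements of `F`. -/
theorem exists_nu {G : Type} [Group G] (D : Subgroup G) (E F : Set G)
    (hE : ∀ x ∈ E, ∀ u ∈ D, x * u ∈ E) (hF1 : (1 : G) ∈ F)
    (hFc : ∀ f ∈ F, ∀ u ∈ D, f * u = u * f) (m : G → G) (hm : ∀ x, m x ∈ F)
    (hmE : ∀ x, x * m x ∈ E)
    (hinj : ∀ x y, ∀ u ∈ D, y * m y = x * m x * u → ∃ v ∈ D, y = x * v) :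
    ∃ g : G → G, (∀ x, g x ∈ F) ∧ (∀ x, ∀ u ∈ D, g (x * u) = g x) ∧ (∀ x, x * g x ∈ E) ∧
      (∀ x y, x * g x = y * g y → x = y) ∧ (∀ y ∈ E, ∃ x, x * g x = y) := by
  have hout : ∀ x : G, ∃ u ∈ D, (QuotientGroup.mk x : G ⧸ D).out = x * u := by
    intro x
    obtain ⟨u, hu⟩ := QuotientGroup.mk_out_eq_mul D x
    exact ⟨u, u.2, hu⟩
  have hoE : ∀ x ∈ E, (QuotientGroup.mk x : G ⧸ D).out ∈ E := by
    intro x hx
    obtain ⟨u, hu, e⟩ := hout x
    rw [e]; exact hE x hx u hu
  have hmk : ∀ x y : G, (QuotientGroup.mk x : G ⧸ D) = QuotientGroup.mk y →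
      ∃ u ∈ D, y = x * u := by
    intro x y h
    exact ⟨x⁻¹ * y, QuotientGroup.eq.mp h, by group⟩
  have hmk' : ∀ x : G, ∀ u ∈ D, (QuotientGroup.mk (x * u) : G ⧸ D) = QuotientGroup.mk x := by
    intro x u hu
    exact QuotientGroup.eq.mpr (by simpa using D.inv_mem hu)
  let f1 : G ⧸ D → {c : G ⧸ D // c.out ∈ E} := fun c =>
    ⟨QuotientGroup.mk (c.out * m c.out), hoE _ (hmE _)⟩
  have hf1 : Function.Injective f1 := by
    intro c c' h
    have h1 := congrArg Subtype.val h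
    obtain ⟨u, hu, e⟩ := hmk _ _ h1
    obtain ⟨v, hv, e'⟩ := hinj _ _ u hu e
    rw [← QuotientGroup.out_eq' c, ← QuotientGroup.out_eq' c', e', hmk' _ _ hv]
  obtain ⟨h, hb, hR⟩ := Function.Embedding.schroeder_bernstein_of_rel hf1
    (Subtype.val_injective (p := fun c : G ⧸ D => c.out ∈ E))
    (fun c c' => ∃ f ∈ F, (QuotientGroup.mk (c.out * f) : G ⧸ D) = c'.1)
    (fun c => ⟨m c.out, hm _, rfl⟩)
    (fun c => ⟨1, hF1, by rw [mul_one, QuotientGroup.out_eq']⟩)
  choose f hfF hf using hR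
  have key : ∀ x : G, (QuotientGroup.mk (x * f (QuotientGroup.mk x)) : G ⧸ D) =
      (h (QuotientGroup.mk x)).1 := by
    intro x
    obtain ⟨u, hu, e⟩ := hout x
    rw [← hf, e, mul_assoc, ← hFc _ (hfF _) u hu, ← mul_assoc, hmk' _ _ hu]
  refine ⟨fun x => f (QuotientGroup.mk x), fun x => hfF _, fun x u hu => congrArg f (hmk' x u hu),
    fun x => ?_, fun x y hxy => ?_, fun y hy => ?_⟩
  · have h1 := (h (QuotientGroup.mk x)).2
    rw [← key x] at h1
    obtain ⟨u, hu, e⟩ := hout (x * f (QuotientGroup.mk x))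
    rw [e] at h1
    have := hE _ h1 u⁻¹ (D.inv_mem hu)
    simpa using this
  · have h1 : h (QuotientGroup.mk x) = h (QuotientGroup.mk y) := by
      apply Subtype.ext
      rw [← key, ← key]
      exact congrArg _ hxy
    have h2 := hb.1 h1
    simp only [h2] at hxy
    exact mul_right_cancel hxy
  · obtain ⟨c, hc⟩ := hb.2 ⟨QuotientGroup.mk y, hoE y hy⟩
    have h1 := key c.out
    rw [QuotientGroup.out_eq', hc] at h1
    obtain ⟨u, hu, e⟩ := hmk _ _ h1
    refine ⟨c.out * u, ?_⟩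
    show c.out * u * f (QuotientGroup.mk (c.out * u)) = y
    rw [hmk' _ _ hu, QuotientGroup.out_eq', mul_assoc, ← hFc _ (hfF _) u hu, e, mul_assoc]

end Pool.Agent.H728Z.RC.Tree
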