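import Pool.Agent.H615Z.RC.TreeA
import Pool.Agent.H728Z.FBC.Free

/-! Bounded bijections from the Coxeter group onto its two parity classes. -/

set_option autoImplicit false

namespace Pool.Agent.H728Z.RC.Tree

open Pool.Agent.H728Z.FBC

/-- the two parity values -/
def ee (e : Bool) : Multiplicative (ZMod 2) := if e then Multiplicative.ofAdd 1 else 1

theorem ee_inj {e e' : Bool} (h : ee e = ee e') : e = e' := by
  revert h; revert e e'; decide

theorem ee_surj (t : Multiplicative (ZMod 2)) : ∃ e, t = ee e := by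
  revert t; decide

theorem ee_fix (t : Multiplicative (ZMod 2)) (e : Bool) :
    t = ee e ∨ t * Multiplicative.ofAdd 1 = ee e := by
  revert t e; decide

theorem gw_sq (x : Fin 5 × Fin 3) : gw x * gw x = 1 := of_sq x

theorem gw_mem_BW {x : Fin 5 × Fin 3} (h : x.2 ≠ 2) : gw x ∈ BW :=
  Subgroup.subset_closure ⟨x, h, rfl⟩

theorem gw_mem_DW {j : Fin 5} {x : Fin 5 × Fin 3} (h1 : x.1 = j) (h : x.2 ≠ 2) : gw x ∈ DW j :=
  Subgroup.subset_closure ⟨x, ⟨h1, h⟩, rfl⟩

theorem DW_le_BW (j : Fin 5) : DW j ≤ BW :=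
  Subgroup.closure_mono (Set.image_mono fun _ hx => hx.2)

/-- a homomorphism trivial on `a j`, `b j` is trivial on `DW j` -/
theorem hom_DW {G : Type} [Group G] (φ : CG GW →* G) (j : Fin 5)
    (h : ∀ x : Fin 5 × Fin 3, x.1 = j → x.2 ≠ 2 → φ (gw x) = 1) {u : CG GW} (hu : u ∈ DW j) :
    φ u = 1 := by
  have : DW j ≤ φ.ker := by
    unfold DW
    rw [Subgroup.closure_le]
    rintro _ ⟨x, hx, rfl⟩
    exact h x hx.1 hx.2
  exact this hu

theorem comm_DW {j : Fin 5} {y : Fin 5 × Fin 3}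
    (h : ∀ x : Fin 5 × Fin 3, x.1 = j → x.2 ≠ 2 → GW.Adj y x) {u : CG GW} (hu : u ∈ DW j) :
    gw y * u = u * gw y := by
  have : DW j ≤ Subgroup.centralizer {gw y} := by
    unfold DW
    rw [Subgroup.closure_le]
    rintro _ ⟨x, hx, rfl⟩
    rw [SetLike.mem_coe, Subgroup.mem_centralizer_singleton_iff]
    exact (of_comm (h x hx.1 hx.2)).symm
  exact (Subgroup.mem_centralizer_singleton_iff.mp (this hu)).symm

theorem exists_chi (j : Fin 5) : ∃ χ : CG GW →* Multiplicative (ZMod 2),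
    ∀ x, χ (gw x) = if x = (j + 1, 0) then Multiplicative.ofAdd 1 else 1 := by
  refine exists_hom _ (fun a => ?_) (fun a b _ => mul_comm _ _)
  split_ifs
  · decide
  · simp

/-- an involution exchanging the two sheets -/
def sw (X : Lam) : Equiv.Perm (Lam × Bool) :=
  Function.Involutive.toPerm
    (fun p => if p.2 then (p.1 * X, false) else (p.1 * X⁻¹, true))
    (by rintro ⟨g, b⟩; cases b <;> simp)

theorem sw_true (X g : Lam) : sw X (g, true) = (g * X, false) := rfl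

theorem sw_false (X g : Lam) : sw X (g, false) = (g * X⁻¹, true) := rfl

theorem sw_sq (X : Lam) : sw X * sw X = 1 := by
  ext1 ⟨g, b⟩
  cases b <;> simp [Equiv.Perm.mul_apply, sw_true, sw_false]

/-- images of the generators -/
def act (j : Fin 5) (x : Fin 5 × Fin 3) : Equiv.Perm (Lam × Bool) :=
  if x = (j + 1, 1) then sw 1 else if x = (j - 1, 0) then sw (FreeGroup.of true)
  else if x = (j - 1, 1) then sw (FreeGroup.of false) else 1

theorem act_triv {j : Fin 5} {x : Fin 5 × Fin 3}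
    (h : x ≠ (j + 1, 1) ∧ x ≠ (j - 1, 0) ∧ x ≠ (j - 1, 1)) : act j x = 1 := by
  unfold act
  rw [if_neg h.1, if_neg h.2.1, if_neg h.2.2]

theorem exists_psi (j : Fin 5) : ∃ ψ : CG GW →* Equiv.Perm (Lam × Bool),
    ∀ x, ψ (gw x) = act j x := by
  refine exists_hom _ (fun a => ?_) (fun a b hab => ?_)
  · unfold act
    split_ifs
    · exact sw_sq _
    · exact sw_sq _
    · exact sw_sq _
    · simp
  · have h : ∀ (j : Fin 5) (a b : Fin 5 × Fin 3), GW.Adj a b →
        (a ≠ (j + 1, 1) ∧ a ≠ (j - 1, 0) ∧ a ≠ (j - 1, 1)) ∨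
        (b ≠ (j + 1, 1) ∧ b ≠ (j - 1, 0) ∧ b ≠ (j - 1, 1)) := by decide
    rcases h j a b hab with h1 | h1
    · rw [act_triv h1, one_mul, mul_one]
    · rw [act_triv h1, one_mul, mul_one]

/-- the free subgroup -/
def phi (j : Fin 5) : Lam →* CG GW :=
  FreeGroup.lift fun b => gw (j + 1, 1) * gw (j - 1, if b then 0 else 1)

theorem phi_of (j : Fin 5) (b : Bool) :
    phi j (FreeGroup.of b) = gw (j + 1, 1) * gw (j - 1, if b then 0 else 1) := by
  simp [phi]

/-- small elements -/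
def Sm (j : Fin 5) (M : ℕ) : Set (CG GW) :=
  {f | f ∈ BW ∧ Sh (cRel GW) f M ∧ ∀ u ∈ DW j, f * u = u * f}

theorem Sm.mul {j : Fin 5} {M M' : ℕ} {f f' : CG GW} (h : f ∈ Sm j M) (h' : f' ∈ Sm j M') :
    f * f' ∈ Sm j (M + M') := by
  refine ⟨BW.mul_mem h.1 h'.1, sh_mul h.2.1 h'.2.1, fun u hu => ?_⟩
  rw [mul_assoc, h'.2.2 u hu, ← mul_assoc, h.2.2 u hu, mul_assoc]

theorem Sm.one (j : Fin 5) (M : ℕ) : (1 : CG GW) ∈ Sm j M :=
  ⟨BW.one_mem, sh_one _, fun u _ => by simp⟩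

theorem Sm.gen {j i : Fin 5} (hi : i = j + 1 ∨ i = j - 1) {c : Fin 3} (hc : c ≠ 2) :
    gw (i, c) ∈ Sm j 1 := by
  refine ⟨gw_mem_BW hc, sh_of _, fun u hu => comm_DW ?_ hu⟩
  have h : ∀ (j i : Fin 5) (c : Fin 3), (i = j + 1 ∨ i = j - 1) → c ≠ 2 →
      ∀ x : Fin 5 × Fin 3, x.1 = j → x.2 ≠ 2 → GW.Adj (i, c) x := by decide
  exact h j i c hi hc

theorem phi_gen_sm (j : Fin 5) (b : Bool) : phi j (FreeGroup.of b) ∈ Sm j 2 := by
  rw [phi_of]
  exact Sm.mul (Sm.gen (Or.inl rfl) (by decide)) (Sm.gen (Or.inr rfl) (by cases b <;> decide))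

theorem phi_sm (j : Fin 5) (k : Lam) (N : ℕ) (hk : k.norm ≤ N) : phi j k ∈ Sm j (2 * N) := by
  refine ⟨?_, sh_free _ 2 (fun b => (phi_gen_sm j b).2.1) k N hk, fun u hu => ?_⟩
  · clear hk
    induction k using FreeGroup.induction_on with
    | C1 => simp
    | of b => exact (phi_gen_sm j b).1
    | inv_of b h => rw [map_inv]; exact BW.inv_mem h
    | mul x y hx hy => rw [map_mul]; exact BW.mul_mem hx hy
  · clear hk
    induction k using FreeGroup.induction_on with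
    | C1 => simp
    | of b => exact (phi_gen_sm j b).2.2 u hu
    | inv_of b h =>
      rw [map_inv]
      exact ((show Commute _ _ from h).inv_left).eq
    | mul x y hx hy =>
      rw [map_mul]
      exact (Commute.mul_left (show Commute _ _ from hx) (show Commute _ _ from hy)).eq

theorem chi_phi {j : Fin 5} {χ : CG GW →* Multiplicative (ZMod 2)}
    (hχ : ∀ x, χ (gw x) = if x = (j + 1, 0) then Multiplicative.ofAdd 1 else 1) (k : Lam) :
    χ (phi j k) = 1 := by
  have : χ.comp (phi j) = 1 := by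
    ext b
    have h1 : ((j + 1, 1) : Fin 5 × Fin 3) ≠ (j + 1, 0) := by simp
    have h2 : ∀ (j : Fin 5) (c : Fin 3), ((j - 1, c) : Fin 5 × Fin 3) ≠ (j + 1, 0) := by decide
    simp [phi_of, hχ, h1, h2]
  exact DFunLike.congr_fun this k

theorem psi_phi {j : Fin 5} {ψ : CG GW →* Equiv.Perm (Lam × Bool)}
    (hψ : ∀ x, ψ (gw x) = act j x) (k : Lam) :
    ∀ g : Lam, ψ (phi j k)⁻¹ (g, false) = (g * k, false) := by
  induction k using FreeGroup.induction_on with
  | C1 => intro g; simp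
  | of b =>
    intro g
    have h2 : ∀ (j : Fin 5) (c : Fin 3), ((j - 1, c) : Fin 5 × Fin 3) ≠ (j + 1, 1) := by decide
    have h3 : ((j - 1, 1) : Fin 5 × Fin 3) ≠ (j - 1, 0) := by simp
    have e1 : act j (j + 1, 1) = sw 1 := by simp [act]
    have e2 : act j (j - 1, if b then 0 else 1) = sw (FreeGroup.of b) := by
      cases b
      · simp [act, h2, h3]
      · simp [act, h2]
    have i1 : ∀ x, (gw x)⁻¹ = gw x := fun x => of_inv x
    rw [phi_of, mul_inv_rev, i1, i1, map_mul, hψ, hψ, e1, e2, Equiv.Perm.mul_apply, sw_false,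
      sw_true]
    simp
  | inv_of b h =>
    intro g
    have h1 := h (g * (FreeGroup.of b)⁻¹)
    rw [inv_mul_cancel_right] at h1
    rw [map_inv (phi j), inv_inv, ← h1, map_inv ψ]
    simp
  | mul x y hx hy =>
    intro g
    rw [map_mul, mul_inv_rev, map_mul, Equiv.Perm.mul_apply, hx, hy, mul_assoc]

theorem exists_g : ∃ M : ℕ, ∀ j : Fin 5, ∃ χ : CG GW →* Multiplicative (ZMod 2),
    (∀ u ∈ DW j, χ u = 1) ∧ χ (gw (j, 2)) = 1 ∧ ∀ e : Bool, ∃ g : CG GW → CG GW,
      (∀ x, g x ∈ Sm j M) ∧ (∀ x, ∀ u ∈ DW j, g (x * u) = g x) ∧ (∀ x, χ (x * g x) = ee e) ∧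
      (∀ x y, x * g x = y * g y → x = y) ∧ (∀ y, χ y = ee e → ∃ x, x * g x = y) := by
  obtain ⟨N, ρ, -, hN, hρ⟩ := exists_push (Bool × Bool) 0
  refine ⟨1 + 1 + 2 * N, fun j => ?_⟩
  obtain ⟨χ, hχ⟩ := exists_chi j
  obtain ⟨ψ, hψ⟩ := exists_psi j
  have hχD : ∀ u ∈ DW j, χ u = 1 := by
    intro u hu
    refine hom_DW χ j (fun x h1 _ => ?_) hu
    have h : ∀ (j : Fin 5) (x : Fin 5 × Fin 3), x.1 = j → x ≠ (j + 1, 0) := by decide
    rw [hχ, if_neg (h j x h1)]
  have hψD : ∀ u ∈ DW j, ψ u = 1 := by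
    intro u hu
    refine hom_DW ψ j (fun x h1 _ => ?_) hu
    have h : ∀ (j : Fin 5) (x : Fin 5 × Fin 3), x.1 = j →
        x ≠ (j + 1, 1) ∧ x ≠ (j - 1, 0) ∧ x ≠ (j - 1, 1) := by decide
    rw [hψ, act_triv (h j x h1)]
  refine ⟨χ, hχD, by rw [hχ, if_neg (by simp)], fun e => ?_⟩
  let P : CG GW → Lam × Bool := fun x => ψ x⁻¹ (1, false)
  have hP : ∀ x y, P (x * y) = ψ y⁻¹ (P x) := by
    intro x y
    simp only [P, mul_inv_rev, map_mul, Equiv.Perm.mul_apply]
  let c : Bool × Bool → CG GW := fun t =>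
    (if t.1 then gw (j + 1, 0) else 1) * (if t.2 then gw (j + 1, 1) else 1)
  have hc : ∀ t, c t ∈ Sm j (1 + 1) := by
    intro t
    refine Sm.mul ?_ ?_
    · split_ifs
      · exact Sm.gen (Or.inl rfl) (by decide)
      · exact Sm.one _ _
    · split_ifs
      · exact Sm.gen (Or.inl rfl) (by decide)
      · exact Sm.one _ _
  have ht : ∀ x, ∃ t, χ (x * c t) = ee e ∧ (P (x * c t)).2 = false := by
    intro x
    have h1 : ∃ t1 : Bool, χ (x * (if t1 then gw (j + 1, 0) else 1)) = ee e := by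
      rcases ee_fix (χ x) e with h | h
      · exact ⟨false, by simpa using h⟩
      · exact ⟨true, by simpa [hχ] using h⟩
    obtain ⟨t1, h1⟩ := h1
    set y := x * (if t1 then gw (j + 1, 0) else 1) with hy
    have h2 : ∃ t2 : Bool, (P (y * (if t2 then gw (j + 1, 1) else 1))).2 = false := by
      rcases hq : P y with ⟨g, b⟩
      cases b
      · exact ⟨false, by simp [hq]⟩
      · refine ⟨true, ?_⟩
        have i1 : (gw (j + 1, 1))⁻¹ = gw (j + 1, 1) := of_inv _
        have e1 : act j (j + 1, 1) = sw 1 := by simp [act]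
        simp only [if_true]
        rw [hP, i1, hψ, e1, hq, sw_true]
    obtain ⟨t2, h2⟩ := h2
    refine ⟨(t1, t2), ?_, ?_⟩
    · simp only [c]
      rw [← mul_assoc, map_mul, ← hy, h1]
      have h3 : ((j + 1, 1) : Fin 5 × Fin 3) ≠ (j + 1, 0) := by simp
      cases t2 <;> simp [hχ, h3]
    · simp only [c]
      rw [← mul_assoc, ← hy]
      exact h2
  choose t ht1 ht2 using ht
  let κ : CG GW → Lam := fun x => (P (x * c (t x))).1
  have hκ : ∀ x, P (x * c (t x)) = (κ x, false) := fun x => Prod.ext rfl (ht2 x)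
  let m : CG GW → CG GW := fun x => c (t x) * phi j ((κ x)⁻¹ * ρ (κ x) (t x))
  have hPm : ∀ x, P (x * m x) = (ρ (κ x) (t x), false) := by
    intro x
    simp only [m]
    rw [← mul_assoc, hP, hκ, psi_phi hψ, mul_inv_cancel_left]
  have hm : ∀ x, m x ∈ Sm j (1 + 1 + 2 * N) := fun x => Sm.mul (hc _) (phi_sm j _ N (hN _ _))
  refine exists_nu (DW j) {x | χ x = ee e} (Sm j (1 + 1 + 2 * N)) ?_ (Sm.one _ _)
    (fun f hf => hf.2.2) m hm ?_ ?_
  · intro x hx u hu
    show χ (x * u) = ee e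
    rw [map_mul, hχD u hu, mul_one]
    exact hx
  · intro x
    show χ (x * m x) = ee e
    simp only [m]
    rw [← mul_assoc, map_mul, chi_phi hχ, mul_one]
    exact ht1 x
  · intro x y u hu h
    have h1 : P (y * m y) = P (x * m x) := by
      rw [h, hP, hψD _ ((DW j).inv_mem hu)]
      rfl
    rw [hPm, hPm] at h1
    obtain ⟨h2, h3⟩ := hρ _ _ _ _ (Prod.ext_iff.mp h1).1
    have h4 : m y = m x := by simp only [m]; rw [h2, h3]
    refine ⟨u, hu, ?_⟩
    rw [h4, mul_assoc x, (hm x).2.2 u hu, ← mul_assoc x] at h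
    exact mul_right_cancel h

end Pool.Agent.H728Z.RC.Tree
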